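import Pool.Agent.Helper21.Dupin.Final

/-!
MP_03b233_gt. Finite type Dupin hypersurfaces of `S^{n+1}` which are not isoparametric exist if and
only if `n ≥ 3`.
-/

namespace Pool.Agent.Results.MP_03b233_gt.Existence

open Pool.Agent.Helper21.Dupin

/-- The cone over the Clifford torus is minimal, hence of `1`-type. -/
theorem cli_isFiniteType (m : ℕ) (hm : 0 < m) : (cliM m).IsFiniteType := by
  have hD := cli_dupin hm
  refine ⟨1, 0, fun _ => (cliM m).x, fun _ => -((2 + m : ℕ) : ℝ), ?_, ?_, ?_, ?_⟩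
  · intro _; exact (cliM m).smooth_x
  · rintro _ ⟨d, hd⟩
    have h0 : (0 : Dom (2 + m)) ∈ (cliM m).U := Set.mem_univ _
    have h1 : fderiv ℝ (cliM m).x 0 = 0 := by
      have : (cliM m).x =ᶠ[nhds 0] fun _ => d :=
        Filter.eventuallyEq_of_mem ((cliM m).isOpen.mem_nhds h0) hd
      rw [this.fderiv_eq]; simp
    have h2 := (cliM m).immersion 0 h0
    rw [h1] at h2
    have h3 : (Pi.single (i₀ m) 1 : Dom (2 + m)) = 0 := h2 rfl
    have h4 := congrFun h3 (i₀ m)
    simp at h4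
  · intro _ u hu
    rw [(cliM m).laplace_x hu]
    have h1 : (cliM m).H u = 0 := by
      rw [(cliM m).H_eq hD hu]
      simp [Fin.sum_univ_three]
    rw [h1, zero_smul, add_zero]
  · intro u hu
    simp

theorem cli_not_isoparametric (m : ℕ) (hm : 0 < m) : ¬ (cliM m).IsIsoparametric := by
  have hD := cli_dupin hm
  intro hiso
  set e : Dom (2 + m) := Pi.single (Fin.natAdd 2 ⟨0, hm⟩) 1 with he
  have h0 := hD.isPrincipal (Set.mem_univ (0 : Dom (2 + m))) 1
  have h1 := hiso 0 (Set.mem_univ _) e (Set.mem_univ _) _ h0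
  obtain ⟨a, ha⟩ := hD.exists_eq (Set.mem_univ e) h1
  have hnpos : ∀ u : Dom (2 + m), 0 < coneLam 2 m 1 1 u := by
    intro u
    unfold coneLam
    have := nrm_pos (P₂ (2 + m) 2 u)
    positivity
  have hne : coneLam 2 m 1 1 e ≠ coneLam 2 m 1 1 0 := by
    intro h
    unfold coneLam at h
    have h2 : nrm (P₂ (2 + m) 2 e) = nrm (P₂ (2 + m) 2 0) := by
      have h3 := mul_left_cancel₀ (by norm_num : (1 : ℝ) / 1 ≠ 0) h
      exact inv_injective h3
    have h3 := nrm_sq (P₂ (2 + m) 2 e)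
    have h4 := nrm_sq (P₂ (2 + m) 2 (0 : Dom (2 + m)))
    rw [h2] at h3
    have h5 : ssq (P₂ (2 + m) 2 e) = ssq (P₂ (2 + m) 2 (0 : Dom (2 + m))) := by
      have hp := nrm_pos (P₂ (2 + m) 2 (0 : Dom (2 + m)))
      have hp2 : nrm (P₂ (2 + m) 2 (0 : Dom (2 + m))) ^ 2 ≠ 0 := by positivity
      have h6 : nrm (P₂ (2 + m) 2 (0 : Dom (2 + m))) ^ 2 * (ssq (P₂ (2 + m) 2 e)
        - ssq (P₂ (2 + m) 2 (0 : Dom (2 + m)))) = 0 := by linarith
      linarith [(mul_eq_zero.mp h6).resolve_left hp2]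
    have h6 : ssq (P₂ (2 + m) 2 (0 : Dom (2 + m))) = 0 := by
      rw [map_zero]; unfold ssq; simp
    have h7 : ssq (P₂ (2 + m) 2 e) = 1 := by
      have h8 : P₂ (2 + m) 2 e = e := by
        funext i
        rw [P₂_apply]
        by_cases hi : (i : ℕ) < 2
        · rw [if_pos hi, he]
          have : i ≠ Fin.natAdd 2 ⟨0, hm⟩ := by
            rintro rfl
            simp at hi
          rw [Pi.single_eq_of_ne this]
        · rw [if_neg hi]
      rw [h8]
      unfold ssq
      simp [he, Pi.single_apply]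
    rw [h6, h7] at h5
    exact one_ne_zero h5
  have p0 := hnpos 0
  have pe := hnpos e
  fin_cases a
  · change -(coneLam 2 m 1 1 e) = coneLam 2 m 1 1 0 at ha
    linarith
  · exact hne ha
  · change (0 : ℝ) = coneLam 2 m 1 1 0 at ha
    linarith

/-- Finite type Dupin hypersurfaces of `S^{n+1}` that are not isoparametric exist if and only if
`n ≥ 3`. -/
theorem result (n : ℕ) : (∃ M : Hypersurface n, M.IsDupin ∧ M.IsFiniteType ∧ ¬ M.IsIsoparametric)
    ↔ 3 ≤ n := by
  constructor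
  · rintro ⟨M, ⟨g, κ, m, hD⟩, hf, hiso⟩
    by_contra hn
    have hgn : g ≤ n := by
      obtain ⟨-, -, h3, h4, -⟩ := hD
      rw [← h4]
      calc g = ∑ _a : Fin g, 1 := by simp
        _ ≤ ∑ a, m a := Finset.sum_le_sum fun a _ => h3 a
    by_cases hg1 : g ≤ 1
    · exact hiso (hD.isoparametric_of_le_one hg1)
    · have hg2 : g = 2 := by omega
      subst hg2
      obtain ⟨h1, h2⟩ := hD.twoPC.classification hiso
      obtain ⟨k, hk⟩ := h2.mp hf
      obtain ⟨p, ⟨r, hr⟩, hp, -, hpn, -⟩ := (h1 k).mp hk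
      omega
  · intro hn
    obtain ⟨m, rfl⟩ : ∃ m, n = 2 + m := ⟨n - 2, by omega⟩
    have hm : 0 < m := by omega
    exact ⟨cliM m, ⟨_, _, _, cli_dupin hm⟩, cli_isFiniteType m hm, cli_not_isoparametric m hm⟩

end Pool.Agent.Results.MP_03b233_gt.Existence
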