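import Pool.Agent.Helper21.Dupin.Final

/-!
MP_03b233_gt. The finite type Dupin hypersurfaces of the sphere with at most two distinct principal
curvatures which are not isoparametric.
-/

namespace Pool.Agent.Results.MP_03b233_gt.TwoCurvatures

open Pool.Agent.Helper21.Dupin

/-- A non-isoparametric Dupin hypersurface of `S^{n+1}` with at most two distinct principal
curvatures is of `k`-type if and only if, for some even `p` with `0 < p < min (n, 2k - 3)`, it is an
open part of the cone `⟨x, ζ⟩ = t |P_W x| > 0`, `dim W = p + 1`, `ζ` a unit vector orthogonal to `W`,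
`t² = (2k - 2)(2k - 3 - p) / p`, where in addition `n` is even or `4k - 6 < n`. It is of finite type
if and only if it is of `k`-type for some `k`. -/
theorem result {n : ℕ} (M : Hypersurface n) {g : ℕ} (hg : g ≤ 2) {κ : Fin g → Dom n → ℝ}
    {m : Fin g → ℕ} (hD : M.IsDupinWith g κ m) (hiso : ¬ M.IsIsoparametric) :
    (∀ k : ℕ, M.IsKType k ↔ ∃ p : ℕ, Even p ∧ 0 < p ∧ p + 3 < 2 * k ∧ p < n ∧
      (Even n ∨ 4 * k < n + 6) ∧
      M.IsConePart p (Real.sqrt ((2 * k - 2) * (2 * k - 3 - p) / p))) ∧
    (M.IsFiniteType ↔ ∃ k : ℕ, M.IsKType k) := by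
  by_cases hg1 : g ≤ 1
  · exact absurd (hD.isoparametric_of_le_one hg1) hiso
  · have hg2 : g = 2 := by omega
    subst hg2
    exact hD.twoPC.classification hiso

end Pool.Agent.Results.MP_03b233_gt.TwoCurvatures
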