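import Pool.Agent.Helper21.Dupin.Final

/-!
MP_03b233_gt. The types of the non-isoparametric finite type Dupin hypersurfaces with two distinct
principal curvatures.
-/

namespace Pool.Agent.Results.MP_03b233_gt.Types

open Pool.Agent.Helper21.Dupin

theorem cone_not_isoparametric {p q : ℕ} (hp : 0 < p) (hq : 0 < q) {c s : ℝ} (hc : 0 < c)
    (hs : 0 < s) (hcs : c ^ 2 + s ^ 2 = 1) :
    ¬ (coneM hc hcs : Hypersurface (p + q)).IsIsoparametric := by
  set M : Hypersurface (p + q) := coneM hc hcs with hM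
  have hT : M.TwoPC (coneLam p q c s) (fun _ => 0) p q := coneM_twoPC hp hq hc hs hcs
  have hD := hT.isDupinWith
  intro hiso
  set e : Dom (p + q) := Pi.single (Fin.natAdd p ⟨0, hq⟩) 1 with he
  have h0 := hD.isPrincipal (Set.mem_univ (0 : Dom (p + q))) 0
  have h1 := hiso 0 (Set.mem_univ _) e (Set.mem_univ _) _ h0
  obtain ⟨a, ha⟩ := hD.exists_eq (Set.mem_univ e) h1
  have hsc : 0 < s / c := by positivity
  have hnpos : ∀ u : Dom (p + q), 0 < coneLam p q c s u := by
    intro u
    unfold coneLam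
    have := nrm_pos (P₂ (p + q) p u)
    positivity
  have hne : coneLam p q c s e ≠ coneLam p q c s 0 := by
    intro h
    unfold coneLam at h
    have h2 : nrm (P₂ (p + q) p e) = nrm (P₂ (p + q) p 0) := by
      have h3 := mul_left_cancel₀ hsc.ne' h
      exact inv_injective h3
    have h3 := nrm_sq (P₂ (p + q) p e)
    have h4 := nrm_sq (P₂ (p + q) p (0 : Dom (p + q)))
    rw [h2] at h3
    have h5 : ssq (P₂ (p + q) p e) = ssq (P₂ (p + q) p (0 : Dom (p + q))) := by
      have hp := nrm_pos (P₂ (p + q) p (0 : Dom (p + q)))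
      have hp2 : nrm (P₂ (p + q) p (0 : Dom (p + q))) ^ 2 ≠ 0 := by positivity
      have h6 : nrm (P₂ (p + q) p (0 : Dom (p + q))) ^ 2 * (ssq (P₂ (p + q) p e)
        - ssq (P₂ (p + q) p (0 : Dom (p + q)))) = 0 := by linarith
      linarith [(mul_eq_zero.mp h6).resolve_left hp2]
    have h6 : ssq (P₂ (p + q) p (0 : Dom (p + q))) = 0 := by
      rw [map_zero]; unfold ssq; simp
    have h7 : ssq (P₂ (p + q) p e) = 1 := by
      have h8 : P₂ (p + q) p e = e := by
        funext i
        rw [P₂_apply]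
        by_cases hi : (i : ℕ) < p
        · rw [if_pos hi, he]
          have : i ≠ Fin.natAdd p ⟨0, hq⟩ := by
            rintro rfl
            simp at hi
          rw [Pi.single_eq_of_ne this]
        · rw [if_neg hi]
      rw [h8]
      unfold ssq
      simp [he, Pi.single_apply]
    rw [h6, h7] at h5
    exact one_ne_zero h5
  have p0 := hnpos 0
  fin_cases a
  · exact hne ha
  · change (0 : ℝ) = coneLam p q c s 0 at ha
    linarith

/-- There is a Dupin hypersurface of `S^{n+1}` with exactly two distinct principal curvatures, not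
isoparametric and of `k`-type, if and only if `k ≥ 3`, `n ≥ 4` and either `n` is even or
`n > 4k - 6`. -/
theorem result (n k : ℕ) : (∃ M : Hypersurface n, (∃ κ m, M.IsDupinWith 2 κ m) ∧
    ¬ M.IsIsoparametric ∧ M.IsKType k) ↔ 3 ≤ k ∧ 4 ≤ n ∧ (Even n ∨ 4 * k < n + 6) := by
  constructor
  · rintro ⟨M, ⟨κ, m, hD⟩, hiso, hk⟩
    obtain ⟨h1, -⟩ := hD.twoPC.classification hiso
    obtain ⟨p, ⟨r, hr⟩, hp, hpk, hpn, hn, -⟩ := (h1 k).mp hk
    have hk3 : 3 ≤ k := by omega
    refine ⟨hk3, ?_, hn⟩
    rcases hn with ⟨r', hr'⟩ | hn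
    · omega
    · omega
  · rintro ⟨hk, hn, hcond⟩
    obtain ⟨q, rfl⟩ : ∃ q, n = 2 + q := ⟨n - 2, by omega⟩
    have hq : 0 < q := by omega
    obtain ⟨l, hl⟩ : ∃ l, l + 3 = 2 * k := ⟨2 * k - 3, by omega⟩
    have hodd : Odd l := ⟨k - 2, by omega⟩
    have hpl : 2 < l := by omega
    have hκ : 0 < Hypersurface.kap 2 l := by
      unfold Hypersurface.kap
      have : (2 : ℝ) < l := by exact_mod_cast hpl
      have h1 : (0 : ℝ) < l - (2 : ℕ) := by push_cast; linarith
      positivity
    set κ := Hypersurface.kap 2 l with hκd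
    set c := Real.sqrt (κ / (1 + κ)) with hcd
    set s := Real.sqrt (1 / (1 + κ)) with hsd
    have hc : 0 < c := Real.sqrt_pos.mpr (by positivity)
    have hs : 0 < s := Real.sqrt_pos.mpr (by positivity)
    have hc2 : c ^ 2 = κ / (1 + κ) := Real.sq_sqrt (by positivity)
    have hs2 : s ^ 2 = 1 / (1 + κ) := Real.sq_sqrt (by positivity)
    have hcs : c ^ 2 + s ^ 2 = 1 := by
      rw [hc2, hs2]; field_simp; ring
    have hquot : c ^ 2 / s ^ 2 = κ := by
      rw [hc2, hs2]; field_simp
    have hT : (coneM hc hcs : Hypersurface (2 + q)).TwoPC (coneLam 2 q c s) (fun _ => 0) 2 q :=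
      coneM_twoPC (by norm_num) hq hc hs hcs
    refine ⟨coneM hc hcs, ⟨_, _, hT.isDupinWith⟩,
      cone_not_isoparametric (by norm_num) hq hc hs hcs, ?_⟩
    have h1 := hT.kType (fun _ _ => rfl) (l := l) (by decide) hodd hpl (by
      rcases hcond with h | h
      · exact Or.inl h
      · right; omega) (fun u _ => by
        rw [coneM_grad hc hs hcs u, hquot])
    have hk2 : (l + 3) / 2 = k := by omega
    rwa [hk2] at h1

end Pool.Agent.Results.MP_03b233_gt.Types
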